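import Mathlib

/-!
Definitions for the endpoint gradient bound of the centered maximal function.
-/

set_option autoImplicit false
open MeasureTheory
open scoped ENNReal ContDiff

namespace Pool.Agent.MP_bf8c07_an_h89

variable {𝕜 : Type*} [RCLike 𝕜] {d : ℕ}

/-- The centered Hardy-Littlewood maximal function, with values in `[0, ∞]`: the supremum over
all radii `r > 0` of the average of `|f|` over the open ball `B(x, r)`. -/
noncomputable def maximal (f : EuclideanSpace ℝ (Fin d) → 𝕜) (x : EuclideanSpace ℝ (Fin d)) :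
    ℝ≥0∞ :=
  ⨆ (r : ℝ) (_ : 0 < r), (∫⁻ y in Metric.ball x r, ‖f y‖ₑ) / volume (Metric.ball x r)

/-- `u` is locally integrable and its distributional gradient is the locally integrable vector
field `g`: for every smooth compactly supported test function `φ` and every coordinate `i`,
the integral of `u ∂_i φ` equals minus the integral of `g_i φ`. -/
def IsWeakGradient (u : EuclideanSpace ℝ (Fin d) → 𝕜)
    (g : EuclideanSpace ℝ (Fin d) → EuclideanSpace 𝕜 (Fin d)) : Prop :=
  LocallyIntegrable u ∧ LocallyIntegrable g ∧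
    ∀ φ : EuclideanSpace ℝ (Fin d) → ℝ, ContDiff ℝ ∞ φ → HasCompactSupport φ → ∀ i : Fin d,
      ∫ x, fderiv ℝ φ x (EuclideanSpace.single i 1) • u x = - ∫ x, φ x • g x i

/-- `f` is radial as an almost-everywhere class: `f ∘ R = f` almost everywhere for every
orthogonal map `R`. -/
def IsAERadial (f : EuclideanSpace ℝ (Fin d) → 𝕜) : Prop :=
  ∀ R : EuclideanSpace ℝ (Fin d) ≃ₗᵢ[ℝ] EuclideanSpace ℝ (Fin d), (fun x => f (R x)) =ᵐ[volume] f

end Pool.Agent.MP_bf8c07_an_h89
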